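import Pool.Agent.Helper43.AX.St
import Pool.Agent.Helper60.DZ2.M_Red

/-! Project AX (MP_b3ce06_al), module IN -/

set_option autoImplicit false

namespace Pool.Agent.Helper19.AX

open Pool.Agent.Helper43.AX
open Pool.Agent.Helper43.GD (Sys Fr Gn FinP IsHat)

private lemma nontriv {p : ℕ} {L : Type} [CommRing L] {x : Lˣ} (h : FF p L x) : Nontrivial L := by
  rcases subsingleton_or_nontrivial L with hL | hL
  · exfalso
    have h1 : Nat.card L = 1 := Nat.card_unique
    have h2 := h.card
    rw [h1] at h2
    have h3 : 1 < p ^ p := Nat.one_lt_pow (by have := h.five; omega) (by have := h.five; omega)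
    omega
  · exact hL

private lemma two_ne {p : ℕ} {L : Type} [CommRing L] {x : Lˣ} (h : FF p L x) : (2 : L) ≠ 0 := by
  haveI := nontriv h
  intro h2
  have hodd : p % 2 = 1 := by
    rcases h.pr.eq_two_or_odd with h3 | h3
    · have := h.five
      omega
    · exact h3
  have hp : p = 2 * (p / 2) + 1 := by omega
  have hc := h.char
  rw [hp] at hc
  push_cast at hc
  rw [h2, zero_mul, zero_add] at hc
  exact one_ne_zero hc

private lemma rf {p : ℕ} {L : Type} [CommRing L] {x : Lˣ} (h : FF p L x) : RF L x := by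
  haveI := nontriv h
  refine ⟨?_, ?_⟩
  · apply Nat.finite_of_card_ne_zero
    rw [h.card]
    have := h.five
    positivity
  · apply h.unit
    intro h0
    have h1 : ((x : L) - 1) * ((x : L) + 1) = 0 := by linear_combination h0
    have h2 : (x : L) + 1 ≠ 0 := by
      rw [← h.as]
      exact (x.isUnit.pow _).ne_zero
    by_cases h3 : (x : L) - 1 = 0
    · have h4 : (x : L) = 1 := by linear_combination h3
      have h5 := h.as
      rw [h4, one_pow] at h5
      exact one_ne_zero (α := L) (by linear_combination -h5)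
    · have := (h.unit _ h3).mul_right_eq_zero.1 h1
      exact h2 this

theorem hIN (hFL : StFL) (hAU : StAU) (hWM : StWM) (hHAT : Pool.Agent.Helper43.GD.StHAT)
    (hCEL : Pool.Agent.Helper43.GD.StCEL) : StIN := by
  intro p L _ x hF A _ s' h1 hx
  haveI := nontriv hF
  have hR := rf hF
  obtain ⟨H, _, s, hs⟩ := hHAT L x
  have hP := hWM.1 L H x s hR hs.1 hs.2.1 hs.2.2.1
  obtain ⟨Q, hxU, hQE, hQF⟩ := hAU L H x s hR hs
  have hall := hFL p L _ x Q hF hxU
  have hloc : IsLocalRing L := by
    apply IsLocalRing.of_isUnit_or_isUnit_one_sub_self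
    intro a
    by_cases ha : a = 0
    · right
      rw [ha, sub_zero]
      exact isUnit_one
    · left
      exact hF.unit a ha
  have hfin : Finite Q.gp := hCEL L _ Q hR.fin hloc (hF.unit _ (two_ne hF)) hall
  have hmem : ∀ g : H, MulAut.conj g ∈ Q.gp := by
    have hle : s.gp ≤ Q.gp.comap MulAut.conj := by
      rw [Sys.gp, Subgroup.closure_le]
      rintro y (⟨a, rfl⟩ | ⟨a, rfl⟩)
      · change MulAut.conj (s.E a) ∈ Q.gp
        rw [← hQE]
        exact Q.E_mem a
      · change MulAut.conj (s.F a) ∈ Q.gp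
        rw [← hQF]
        exact Q.F_mem a
    intro g
    have : g ∈ s.gp := by rw [hs.2.2.1]; trivial
    exact hle this
  have hfc : Finite (H ⧸ Subgroup.center H) := by
    apply Finite.of_injective
      (fun q : H ⧸ Subgroup.center H => (⟨MulAut.conj q.out, hmem _⟩ : Q.gp))
    intro p q hpq
    have h2 : MulAut.conj p.out = MulAut.conj q.out := congrArg Subtype.val hpq
    have h3 : ((p.out : H) : H ⧸ Subgroup.center H) = ((q.out : H) : H ⧸ Subgroup.center H) := by
      rw [QuotientGroup.eq, Subgroup.mem_center_iff]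
      intro g
      have h4 : p.out * g * (p.out)⁻¹ = q.out * g * (q.out)⁻¹ := by
        have := congrArg (fun f : MulAut H => f g) h2
        simpa [MulAut.conj_apply] using this
      have h5 : g * (p.out⁻¹ * q.out) = p.out⁻¹ * (p.out * g * (p.out)⁻¹) * q.out := by group
      rw [h5, h4]
      group
    simpa using h3
  have hH : Finite H := Pool.Agent.Helper60.DZ2.Red_schur hP
  obtain ⟨φ, hφE, hφF⟩ := hs.2.2.2 A s' h1 hx
  have hle : s'.gp ≤ φ.range := by
    rw [Sys.gp, Subgroup.closure_le]
    rintro y (⟨a, rfl⟩ | ⟨a, rfl⟩)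
    · exact ⟨s.E a, hφE a⟩
    · exact ⟨s.F a, hφF a⟩
  have hr : (φ.range : Set A).Finite := by
    rw [MonoidHom.coe_range]
    exact Set.finite_range φ
  exact (hr.subset hle).to_subtype

end Pool.Agent.Helper19.AX
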